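import Pool.Agent.H482R3.EB.Cen
import Pool.Agent.H797R2.EA.GEN

set_option autoImplicit false

/-! Project CEN: Part I with the first syllable (helper930). -/

namespace Pool.Agent.H930R2.EA

open Pool.Agent.H482R3.EA
open NF

theorem t_LNE (hR : S_REP) (hN : S_UPN) (hM : S_UPM) (hAN : S_ACTN) (h0 : S_A0) :
    Pool.Agent.H482R3.EB.S_LNE := by
  rintro S h l y ⟨hv, hin, hmeet, hno⟩
  by_cases hm : ∀ q, S.I q l → ¬ Near S q (st h)
  · have hy := hno hm
    rw [hAN S h l y hin, hN S h l y hm, Pool.Agent.H797R2.EA.gen_att S h l y hy]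
  · push Not at hm
    obtain ⟨q, hq, hnear⟩ := hm
    obtain ⟨hrep, hy⟩ := hmeet q hq hnear
    obtain ⟨m, hm1, hm2⟩ : ∃ m, InD S m (st h) ∧ S.I q m := by
      rcases hst : st h with _ | m' | r
      · rw [hst] at hnear
        exact absurd hnear (by simp [Near])
      · rw [hst] at hnear
        exact ⟨m', rfl, hnear⟩
      · rw [hst] at hnear
        obtain ⟨m, h1, h2⟩ := hnear
        exact ⟨m, h1, h2⟩
    rw [hAN S h l y hin, hM S h l y q m hin hq hnear hm1 hm2,
      Pool.Agent.H797R2.EA.gen_attM hR S _ q l y hq hrep hy, zpow_zero, h0 S h m hv]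

open Classical in
/-- the state after the first syllable -/
noncomputable def fs {S : Sys} : NF S → St S
  | .one => .none
  | .pt h q _ => if h = .one then .pt q else fs h
  | .ln h l _ => if h = .one then .ln l else fs h

/-- prolongation at the beginning -/
def pr {S : Sys} (p : S.P) : NF S → NF S
  | .one => .pt .one p 1
  | .pt h q n => .pt (pr p h) q n
  | .ln h l y => .ln (pr p h) l y

lemma pr_ne {S : Sys} (p : S.P) (h : NF S) : pr p h ≠ .one := by
  cases h <;> simp [pr]

lemma st_pr {S : Sys} (p : S.P) (h : NF S) (hne : h ≠ .one) : st (pr p h) = st h := by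
  cases h with
  | one => exact absurd rfl hne
  | pt h q n => rfl
  | ln h l y => rfl

open Classical in
lemma fs_pr {S : Sys} (p : S.P) (h : NF S) : fs (pr p h) = .pt p := by
  induction h with
  | one =>
    show (if (NF.one : NF S) = .one then St.pt p else fs .one) = _
    rw [if_pos rfl]
  | pt h q n ih =>
    show (if pr p h = .one then St.pt q else fs (pr p h)) = _
    rw [if_neg (pr_ne p h), ih]
  | ln h l y ih =>
    show (if pr p h = .one then St.ln l else fs (pr p h)) = _
    rw [if_neg (pr_ne p h), ih]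

open Classical in
lemma fs_ne {S : Sys} (h : NF S) (hne : h ≠ .one) : fs h ≠ .none := by
  induction h with
  | one => exact absurd rfl hne
  | pt h q n ih =>
    show (if h = .one then St.pt q else fs h) ≠ _
    split_ifs with h1
    · intro h2
      cases h2
    · exact ih h1
  | ln h l y ih =>
    show (if h = .one then St.ln l else fs h) ≠ _
    split_ifs with h1
    · intro h2
      cases h2
    · exact ih h1

lemma valid_base {S : Sys} (p : S.P) : Valid (.pt .one p 1 : NF S) :=
  ⟨trivial, one_ne_zero, fun h => h⟩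

lemma valid_pr {S : Sys} (p : S.P) (h : NF S) (hv : Valid h) (hne : h ≠ .one)
    (hf : Pool.Agent.H482R3.EB.Far S p (fs h)) : Valid (pr p h) := by
  induction h with
  | one => exact absurd rfl hne
  | pt h q n ih =>
    obtain ⟨hv1, hn, hnear⟩ := hv
    by_cases h1 : h = .one
    · subst h1
      have hf' : ¬ Near S q (.pt p) := by
        have : fs (.pt .one q n : NF S) = .pt q := if_pos rfl
        rw [this] at hf
        exact hf
      exact ⟨valid_base p, hn, hf'⟩
    · have hf' : Pool.Agent.H482R3.EB.Far S p (fs h) := by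
        have : fs (.pt h q n : NF S) = fs h := if_neg h1
        rw [this] at hf
        exact hf
      refine ⟨ih hv1 h1 hf', hn, ?_⟩
      rw [st_pr p h h1]
      exact hnear
  | ln h l y ih =>
    obtain ⟨hv1, hin, hmeet, hno⟩ := hv
    by_cases h1 : h = .one
    · subst h1
      have hf' : ∀ q, S.I q l → ¬ Near S q (.pt p) := by
        have : fs (.ln .one l y : NF S) = .ln l := if_pos rfl
        rw [this] at hf
        exact hf
      refine ⟨valid_base p, ?_, ?_, ?_⟩
      · intro hI
        exact hf' p hI ⟨l, hI, hI⟩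
      · intro q hq hnear
        exact absurd hnear (hf' q hq)
      · intro _
        exact hno fun q _ h => h
    · have hf' : Pool.Agent.H482R3.EB.Far S p (fs h) := by
        have : fs (.ln h l y : NF S) = fs h := if_neg h1
        rw [this] at hf
        exact hf
      refine ⟨ih hv1 h1 hf', ?_, ?_, ?_⟩
      · rw [st_pr p h h1]
        exact hin
      · rw [st_pr p h h1]
        exact hmeet
      · rw [st_pr p h h1]
        exact hno

theorem t_ACT2 (hR : S_REP) (_hU : S_UNI) (hN : S_UPN) (hM : S_UPM) (hAN : S_ACTN) (h0 : S_A0)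
    (h1 : S_A1) (h2 : S_A2) (hP1 : S_P1) (hP : S_PTN) (h6 : S_STL) (h7 : S_GEN) (h8 : S_VAL) :
    Pool.Agent.H482R3.EB.S_ACT2 := by
  have hL := t_LNE hR hN hM hAN h0
  intro S
  refine ⟨{
    Ω := {h : NF S // Valid h}
    one := ⟨.one, trivial⟩
    act := fun ω l y => ⟨NF.act ω.1 l y, hP1 S ω.1 l y ω.2⟩
    st := fun ω => NF.st ω.1
    act_one := fun ω l => Subtype.ext (h0 S ω.1 l ω.2)
    act_mul := fun ω l y y' => Subtype.ext (h1 S ω.1 l y y' ω.2)
    act_pt := fun ω l m p n hl hm => Subtype.ext (h2 S ω.1 l m p n ω.2 hl hm)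
    st_one := rfl
    st_eq_none := ?_
    st_pt := ?_
    st_ln := fun ω l y hD hN hy => (h6 S ω.1 l y ω.2 hD).1 hN hy
    st_ln' := fun ω l y q hD hq hN hy => (h6 S ω.1 l y ω.2 hD).2 q hq hN hy
    gen := ?_
    val := ?_
    fst := fun ω => fs ω.1
    fst_pt := ?_
    fst_ne := ?_
    pre := ?_ }⟩
  · rintro ⟨ω, hω⟩ h
    cases ω with
    | one => rfl
    | pt h' p n => simp [NF.st] at h
    | ln h' l y => simp [NF.st] at h
  · intro ω l p n hp hn hN
    have := hP S ω.1 l p n ω.2 hp hN
    simp only [hn, if_false] at this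
    show NF.st (NF.act ω.1 l (S.x l p ^ n)) = _
    rw [this]
    rfl
  · intro C hone hstep ω
    have := h7 S (fun h => ∀ hv : Valid h, C ⟨h, hv⟩) (fun _ => hone)
      (fun h l y hv hC hA _ => hstep ⟨h, hv⟩ l y (hC hv) hA) ω.1 ω.2
    exact this ω.2
  · intro K _ φ X hX
    obtain ⟨v, hv1, hv2⟩ := h8 S K inferInstance φ X hX
    exact ⟨fun ω => v ω.1, hv1, fun ω l y => hv2 ω.1 l y⟩
  · intro ω l q n hq hn hnear hne
    have h3 := hP S ω.1 l q n ω.2 hq hnear
    rw [if_neg hn] at h3
    have h4 : ω.1 ≠ .one := fun h => hne (Subtype.ext h)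
    show fs (NF.act ω.1 l (S.x l q ^ n)) = fs ω.1
    rw [h3]
    exact if_neg h4
  · intro ω hne
    exact fs_ne ω.1 fun h => hne (Subtype.ext h)
  · intro ω p hne hfar
    have h4 : ω.1 ≠ .one := fun h => hne (Subtype.ext h)
    refine ⟨⟨pr p ω.1, valid_pr p ω.1 ω.2 h4 hfar⟩, fs_pr p ω.1, ?_⟩
    intro K _ φ X hX v hv1 hv2
    -- values of the syllables
    have hpt : ∀ (h : NF S) (q : S.P) (n : ℤ) (hv : Valid h) (hv' : Valid (.pt h q n)),
        v ⟨.pt h q n, hv'⟩ = v ⟨h, hv⟩ * X q ^ n := by
      intro h q n hv hv'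
      obtain ⟨l, hl⟩ := S.P0 q
      have e1 := hP S h l q n hv hl hv'.2.2
      rw [if_neg hv'.2.1] at e1
      have e2 := hv2 ⟨h, hv⟩ l (S.x l q ^ n)
      rw [map_zpow, hX l q hl] at e2
      rw [← e2]
      congr 1
      exact Subtype.ext e1.symm
    have hln : ∀ (h : NF S) (l : S.Ln) (y : S.L l) (hv : Valid h) (hv' : Valid (.ln h l y)),
        v ⟨.ln h l y, hv'⟩ = v ⟨h, hv⟩ * φ l y := by
      intro h l y hv hv'
      have e1 := hL S h l y hv'
      have e2 := hv2 ⟨h, hv⟩ l y
      rw [← e2]
      congr 1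
      exact Subtype.ext e1.symm
    have key : ∀ (h : NF S) (hv : Valid h) (hv' : Valid (pr p h)),
        v ⟨pr p h, hv'⟩ = X p * v ⟨h, hv⟩ := by
      intro h
      induction h with
      | one =>
        intro hv hv'
        have e1 := hpt .one p 1 hv hv'
        have e3 : v ⟨.one, hv⟩ = 1 := hv1
        rw [e3, one_mul, zpow_one] at e1
        rw [e3, mul_one]
        exact e1
      | pt h q n ih =>
        intro hv hv'
        have e1 := hpt (pr p h) q n hv'.1 hv'
        have e2 := hpt h q n hv.1 hv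
        have e3 := ih hv.1 hv'.1
        show v ⟨.pt (pr p h) q n, hv'⟩ = _
        rw [e1, e2, e3, mul_assoc]
      | ln h l y ih =>
        intro hv hv'
        have e1 := hln (pr p h) l y hv'.1 hv'
        have e2 := hln h l y hv.1 hv
        have e3 := ih hv.1 hv'.1
        show v ⟨.ln (pr p h) l y, hv'⟩ = _
        rw [e1, e2, e3, mul_assoc]
    exact key ω.1 ω.2 _

end Pool.Agent.H930R2.EA
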